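import Mathlib
import Pool.Agent.Y670.TC.Glb

/-!
# Szpiro's conjecture for semistable elliptic curves with a rational point of order two:
the count by conductor and the exceptional set, for every exponent
-/

namespace Pool.Agent.Results.MP_d8bd92_nt.TwoTorsionByConductor

open Finset

/-- the product of the distinct primes dividing `Δ(W)` (the conductor if `gcd(c₄, Δ) = 1`) -/
def conductor (W : WeierstrassCurve ℤ) : ℕ := ∏ p ∈ W.Δ.natAbs.primeFactors, p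

/-- there is a rational point of order 2: `4x³ + b₂x² + 2b₄x + b₆` has a rational root -/
def HasTwoTorsion (W : WeierstrassCurve ℤ) : Prop :=
  ∃ r : ℚ, 4 * r ^ 3 + W.b₂ * r ^ 2 + 2 * W.b₄ * r + W.b₆ = 0

/-- the invariants `(c₄, c₆)` of the integral Weierstrass curves with `Δ ≠ 0` and `gcd(c₄, Δ) = 1`
(the minimal models of the semistable elliptic curves over `ℚ`) having a rational point of
order 2, naive height `max (|c₄|³, c₆²) ≤ X⁶`, conductor `N ≤ Z` and `c₀ N ^ κ < |Δ|` -/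
def Exceptional (κ c₀ Z : ℝ) (X : ℕ) : Set (ℤ × ℤ) :=
  {q | ∃ W : WeierstrassCurve ℤ, W.Δ ≠ 0 ∧ IsCoprime W.c₄ W.Δ ∧ HasTwoTorsion W ∧
    q = (W.c₄, W.c₆) ∧ |W.c₄| ^ 3 ≤ (X : ℤ) ^ 6 ∧ W.c₆ ^ 2 ≤ (X : ℤ) ^ 6 ∧
    (conductor W : ℝ) ≤ Z ∧ c₀ * (conductor W : ℝ) ^ κ < |(W.Δ : ℝ)|}

/-- an integral equation with `gcd(c₄, Δ) = 1` is global minimal -/
theorem gmin_of_coprime (W : WeierstrassCurve ℤ) (hΔ : W.Δ ≠ 0) (hco : IsCoprime W.c₄ W.Δ) :
    Pool.Agent.H39R3.GMin W := by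
  refine ⟨hΔ, fun W' ⟨C, hC⟩ => ?_⟩
  have h4 : ((W'.c₄ : ℤ) : ℚ) = ((C.u⁻¹ : ℚˣ) : ℚ) ^ 4 * (W.c₄ : ℚ) := by
    have := congrArg WeierstrassCurve.c₄ hC
    rw [WeierstrassCurve.variableChange_c₄, WeierstrassCurve.map_c₄, WeierstrassCurve.map_c₄] at this
    simpa using this.symm
  have hD : ((W'.Δ : ℤ) : ℚ) = ((C.u⁻¹ : ℚˣ) : ℚ) ^ 12 * (W.Δ : ℚ) := by
    have := congrArg WeierstrassCurve.Δ hC
    rw [WeierstrassCurve.variableChange_Δ, WeierstrassCurve.map_Δ, WeierstrassCurve.map_Δ] at this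
    simpa using this.symm
  set v : ℚ := ((C.u⁻¹ : ℚˣ) : ℚ) with hv
  have hv0 : v ≠ 0 := Units.ne_zero _
  have hvn : v = (v.num : ℚ) / (v.den : ℚ) := (Rat.num_div_den v).symm
  have hden : ((v.den : ℤ) : ℚ) ≠ 0 := by
    have := v.den_nz
    exact_mod_cast this
  have hcop : IsCoprime v.num (v.den : ℤ) := by
    have := v.reduced
    rw [Int.isCoprime_iff_gcd_eq_one]
    simpa [Int.gcd] using this
  have e4 : W'.c₄ * (v.den : ℤ) ^ 4 = v.num ^ 4 * W.c₄ := by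
    have : (W'.c₄ : ℚ) * ((v.den : ℤ) : ℚ) ^ 4 = (v.num : ℚ) ^ 4 * (W.c₄ : ℚ) := by
      rw [h4]
      nth_rewrite 1 [hvn]
      push_cast at hden ⊢
      field_simp
    exact_mod_cast this
  have eD : W'.Δ * (v.den : ℤ) ^ 12 = v.num ^ 12 * W.Δ := by
    have : (W'.Δ : ℚ) * ((v.den : ℤ) : ℚ) ^ 12 = (v.num : ℚ) ^ 12 * (W.Δ : ℚ) := by
      rw [hD]
      nth_rewrite 1 [hvn]
      push_cast at hden ⊢
      field_simp
    exact_mod_cast this
  have d4 : (v.den : ℤ) ∣ W.c₄ := by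
    have h1 : (v.den : ℤ) ∣ v.num ^ 4 * W.c₄ := by
      rw [← e4]
      exact (dvd_pow_self _ (by norm_num)).mul_left _
    exact (hcop.symm.pow_right).dvd_of_dvd_mul_left h1
  have dD : (v.den : ℤ) ∣ W.Δ := by
    have h1 : (v.den : ℤ) ∣ v.num ^ 12 * W.Δ := by
      rw [← eD]
      exact (dvd_pow_self _ (by norm_num)).mul_left _
    exact (hcop.symm.pow_right).dvd_of_dvd_mul_left h1
  have hu : IsUnit (v.den : ℤ) := hco.isUnit_of_dvd' d4 dD
  have hd1 : (v.den : ℤ) = 1 := by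
    rcases Int.isUnit_iff.mp hu with h | h
    · exact h
    · have : (0 : ℤ) ≤ (v.den : ℤ) := Int.natCast_nonneg _
      omega
  rw [hd1, one_pow, mul_one] at eD
  rw [eD, abs_mul]
  have hn0 : v.num ≠ 0 := Rat.num_ne_zero.mpr hv0
  have h1 : 1 ≤ |v.num ^ 12| := Int.one_le_abs (pow_ne_zero _ hn0)
  have := mul_le_mul_of_nonneg_right h1 (abs_nonneg W.Δ)
  linarith

/-- For every `ε > 0` there is `C` such that for all `κ, c₀, Z > 0` and `X ≥ 1` at most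
`C * min (Z, (X⁶ / c₀) ^ (1/κ)) ^ (5/6) * X ^ ε` isomorphism classes of semistable elliptic curves
over `ℚ` with a rational point of order 2, naive height at most `X⁶` and conductor `N ≤ Z` have
`c₀ N ^ κ < |Δ|`.

In particular (large `Z`) at most `C' * X ^ (5/κ + ε)` classes of naive height at most `X⁶` have
`c₀ N ^ κ < |Δ|`, `X ^ (5/6 + ε)` for `κ = 6`; and (`c₀` small) at most `C * Z ^ (5/6) * X ^ ε`
classes of naive height at most `X⁶` have conductor at most `Z`. -/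
theorem result (ε : ℝ) (hε : 0 < ε) :
    ∃ C : ℝ, ∀ (κ c₀ Z : ℝ) (X : ℕ), 0 < κ → 0 < c₀ → 0 < Z → 1 ≤ X →
      (Exceptional κ c₀ Z X).Finite ∧
      ((Exceptional κ c₀ Z X).ncard : ℝ) ≤
        C * (min Z (((X : ℝ) ^ 6 / c₀) ^ (1 / κ))) ^ ((5 : ℝ) / 6) * (X : ℝ) ^ ε := by
  obtain ⟨C, -, h⟩ := Pool.Agent.Y670.TC.two_cond ε hε
  refine ⟨C, fun κ K Z X hκ hK hZ hX => ?_⟩
  have hX0 : (0 : ℝ) < X := by exact_mod_cast hX
  have hZ0 : 0 < min Z (((X : ℝ) ^ 6 / K) ^ (1 / κ)) := lt_min hZ (by positivity)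
  obtain ⟨hfin, hcard⟩ := h _ X hZ0 hX
  have hsub : Exceptional κ K Z X ⊆ Pool.Agent.Y670.TC.CW Pool.Agent.W270.TM.TwoT
      (min Z (((X : ℝ) ^ 6 / K) ^ (1 / κ))) X := by
    rintro q ⟨W, hΔ, hco, hF, rfl, h4, h6, hNZ, hbig⟩
    have hN : Pool.Agent.H39R3.condW W ≤ conductor W := by
      have e : Pool.Agent.H39R3.condW W =
          ∏ p ∈ W.Δ.natAbs.primeFactors.filter (fun p => 5 ≤ p), p := by
        unfold Pool.Agent.H39R3.condW
        refine prod_congr rfl fun p hp => ?_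
        rw [mem_filter, Nat.mem_primeFactors] at hp
        rw [if_neg]
        intro hpc
        have hpD : (p : ℤ) ∣ W.Δ := Int.natCast_dvd.mpr hp.1.2.1
        have := hco.isUnit_of_dvd' hpc hpD
        rw [Int.isUnit_iff] at this
        have := hp.1.1.two_le
        omega
      rw [e]
      exact prod_le_prod_of_subset_of_one_le' (filter_subset _ _) fun p hp _ =>
        (Nat.prime_of_mem_primeFactors hp).one_lt.le
    have hNR : (Pool.Agent.H39R3.condW W : ℝ) ≤ (conductor W : ℝ) := by exact_mod_cast hN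
    refine ⟨W, gmin_of_coprime W hΔ hco, hF, rfl, h4, h6, le_min (hNR.trans hNZ) ?_⟩
    have h4R : |(W.c₄ : ℝ)| ^ 3 ≤ (X : ℝ) ^ 6 := by exact_mod_cast h4
    have h6R : (W.c₆ : ℝ) ^ 2 ≤ (X : ℝ) ^ 6 := by exact_mod_cast h6
    have hrel : 1728 * (W.Δ : ℝ) = (W.c₄ : ℝ) ^ 3 - (W.c₆ : ℝ) ^ 2 := by
      exact_mod_cast W.c_relation
    have hDle : |(W.Δ : ℝ)| ≤ (X : ℝ) ^ 6 := by
      have h1 : |1728 * (W.Δ : ℝ)| ≤ (X : ℝ) ^ 6 + (X : ℝ) ^ 6 := by
        rw [hrel]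
        refine (abs_sub _ _).trans ?_
        rw [abs_pow, abs_of_nonneg (sq_nonneg (W.c₆ : ℝ))]
        linarith
      rw [abs_mul, abs_of_pos (by norm_num : (0 : ℝ) < 1728)] at h1
      have : 0 ≤ (X : ℝ) ^ 6 := by positivity
      linarith
    have h7 : K * (conductor W : ℝ) ^ κ < (X : ℝ) ^ 6 := lt_of_lt_of_le hbig hDle
    have h8 : (conductor W : ℝ) ^ κ ≤ (X : ℝ) ^ 6 / K := by
      rw [le_div_iff₀ hK]
      linarith
    have h9 : (conductor W : ℝ) = ((conductor W : ℝ) ^ κ) ^ (1 / κ) := by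
      rw [← Real.rpow_mul (Nat.cast_nonneg _), mul_one_div_cancel hκ.ne', Real.rpow_one]
    have h10 : (conductor W : ℝ) ≤ ((X : ℝ) ^ 6 / K) ^ (1 / κ) := by
      rw [h9]
      exact Real.rpow_le_rpow (Real.rpow_nonneg (Nat.cast_nonneg _) _) h8 (by positivity)
    exact hNR.trans h10
  refine ⟨hfin.subset hsub, ?_⟩
  have h1 : ((Exceptional κ K Z X).ncard : ℝ) ≤ (Pool.Agent.Y670.TC.CW
      Pool.Agent.W270.TM.TwoT (min Z (((X : ℝ) ^ 6 / K) ^ (1 / κ))) X).ncard := by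
    exact_mod_cast Set.ncard_le_ncard hsub hfin
  exact h1.trans hcard

end Pool.Agent.Results.MP_d8bd92_nt.TwoTorsionByConductor
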