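import Pool.Agent.Q130.SZ.Curve

/-! Szpiro's inequality for the semistable elliptic curves over `ℚ` with full rational 2-torsion
whose discriminant has boundedly many different exponents: discriminants of every size, at most
`C N ^ ε` exceptional curves with conductor at most `N`. -/

set_option autoImplicit false

namespace Pool.Agent.Results.MP_d8bd92_nt.FewExponents

/-- the product of the distinct primes dividing `Δ(W)` (the conductor if `gcd(c₄, Δ) = 1`) -/
def conductor (W : WeierstrassCurve ℤ) : ℕ := ∏ p ∈ W.Δ.natAbs.primeFactors, p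

/-- all 2-torsion points are rational: `4x³ + b₂x² + 2b₄x + b₆` splits over `ℚ` -/
def FullTwoTorsion (W : WeierstrassCurve ℤ) : Prop :=
  ∃ r₁ r₂ r₃ : ℚ, ∀ x : ℚ,
    4 * x ^ 3 + W.b₂ * x ^ 2 + 2 * W.b₄ * x + W.b₆ = 4 * (x - r₁) * (x - r₂) * (x - r₃)

/-- the exponents in the prime factorization of `m` -/
def exponents (m : ℕ) : Finset ℕ := m.primeFactors.image (fun p => m.factorization p)

/-- the invariants `(c₄, c₆)` of the integral Weierstrass curves with `Δ ≠ 0` and `gcd(c₄, Δ) = 1`
(the minimal models of the semistable elliptic curves over `ℚ`) with full rational 2-torsion, at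
most `n` different exponents in the factorization of `Δ`, conductor at most `N` and
`|Δ| > conductor ^ κ` -/
def Exceptional (n : ℕ) (κ N : ℝ) : Set (ℤ × ℤ) :=
  {q | ∃ W : WeierstrassCurve ℤ, W.Δ ≠ 0 ∧ IsCoprime W.c₄ W.Δ ∧ FullTwoTorsion W ∧
    q = (W.c₄, W.c₆) ∧ (exponents W.Δ.natAbs).card ≤ n ∧ (conductor W : ℝ) ≤ N ∧
    (conductor W : ℝ) ^ κ < |(W.Δ : ℝ)|}

/-- For all `n` and `ε > 0` there are `κ` and `C` such that for every `N ≥ 1` at most `C * N ^ ε`
semistable elliptic curves over `ℚ` with full rational 2-torsion, at most `n` different exponents in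
the factorization of `Δ` (for instance at most `n` bad primes) and conductor at most `N` have
`|Δ| > conductor ^ κ`. There is no bound on `|Δ|`. -/
theorem result (n : ℕ) (ε : ℝ) (hε : 0 < ε) : ∃ κ C : ℝ, 0 < κ ∧ 0 < C ∧ ∀ N : ℝ, 1 ≤ N →
    (Exceptional n κ N).Finite ∧ ((Exceptional n κ N).ncard : ℝ) ≤ C * N ^ ε :=
  Pool.Agent.Q130.SZ.semi_count n ε hε

end Pool.Agent.Results.MP_d8bd92_nt.FewExponents
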