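import Pool.Agent.Q38.AE.Semi

/-!
# The exact number of semistable curves with a large discriminant, for all exponents up to `18 / 7`

For every `2 < κ ≤ 18 / 7` and every `K > κ` the number of the semistable elliptic curves over `ℚ`
with full rational 2-torsion, conductor `N ≤ X` and `N ^ κ ≤ |Δ| < N ^ K` is `X ^ (1 - κ/6 + o(1))`,
and so is the number of those with `N ≤ X` and `N ^ κ ≤ |Δ| ≤ X ^ K`. For `κ ≥ 18 / 7` there are at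
most `X ^ (4/7 + o(1))` of the latter, and for `κ < 3` at least `X ^ (1 - κ/6 - o(1))`.
-/

set_option autoImplicit false

namespace Pool.Agent.Results.MP_d8bd92_nt.LargeDiscriminantsPoly

open Filter Topology

/-- the product of the primes dividing `Δ(W)` (the conductor if `gcd(c₄, Δ) = 1`) -/
def conductor (W : WeierstrassCurve ℤ) : ℕ := ∏ p ∈ W.Δ.natAbs.primeFactors, p

/-- all 2-torsion points are rational: `4x³ + b₂x² + 2b₄x + b₆` splits over `ℚ` -/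
def FullTwoTorsion (W : WeierstrassCurve ℤ) : Prop :=
  ∃ r₁ r₂ r₃ : ℚ, ∀ x : ℚ,
    4 * x ^ 3 + W.b₂ * x ^ 2 + 2 * W.b₄ * x + W.b₆ = 4 * (x - r₁) * (x - r₂) * (x - r₃)

/-- the invariants `(c₄, c₆)` of the integral Weierstrass curves with `Δ ≠ 0` and `gcd(c₄, Δ) = 1`
(the minimal models of the semistable elliptic curves over `ℚ`) having full rational 2-torsion,
conductor `N ≤ X` and `N ^ κ ≤ |Δ| ≤ X ^ K` -/
def Large (κ K X : ℝ) : Set (ℤ × ℤ) :=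
  {q | ∃ W : WeierstrassCurve ℤ, W.Δ ≠ 0 ∧ IsCoprime W.c₄ W.Δ ∧ FullTwoTorsion W ∧
    q = (W.c₄, W.c₆) ∧ (conductor W : ℝ) ≤ X ∧ (conductor W : ℝ) ^ κ ≤ |(W.Δ : ℝ)| ∧
    |(W.Δ : ℝ)| ≤ X ^ K}

/-- the same with `N ^ κ ≤ |Δ| < N ^ K` -/
def Between (κ K X : ℝ) : Set (ℤ × ℤ) :=
  {q | ∃ W : WeierstrassCurve ℤ, W.Δ ≠ 0 ∧ IsCoprime W.c₄ W.Δ ∧ FullTwoTorsion W ∧
    q = (W.c₄, W.c₆) ∧ (conductor W : ℝ) ≤ X ∧ (conductor W : ℝ) ^ κ ≤ |(W.Δ : ℝ)| ∧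
    |(W.Δ : ℝ)| < (conductor W : ℝ) ^ K}

open Pool.Agent.Q38.AE Pool.Agent.Q38.AE.Semi

theorem large_eq (κ K X : ℝ) : Large κ K X = EK κ K X := rfl

theorem between_eq (κ K X : ℝ) : Between κ K X = EB κ K X := rfl

/-- **The number of the curves with a large discriminant.** (1) For `2 < κ ≤ 18 / 7` and `K > κ` both
numbers are `X ^ (1 - κ/6 + o(1))`. (2) For `κ ≥ 18 / 7` and all `K` there are at most
`C X ^ (4 / 7 + ε)` curves in `Large κ K X`. (3) For `2 < κ < 3`, `κ < K`, both numbers are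
`≥ X ^ (1 - κ/6 - ε)` for large `X`. -/
theorem result :
    (∀ κ K X : ℝ, (Large κ K X).Finite ∧ (0 ≤ K → Between κ K X ⊆ Large κ K X)) ∧
    (∀ κ K : ℝ, 2 < κ → κ ≤ 18 / 7 → κ < K →
      Tendsto (fun X : ℝ => Real.log ((Large κ K X).ncard : ℝ) / Real.log X) atTop
        (𝓝 (1 - κ / 6)) ∧
      Tendsto (fun X : ℝ => Real.log ((Between κ K X).ncard : ℝ) / Real.log X) atTop
        (𝓝 (1 - κ / 6))) ∧
    (∀ κ K ε : ℝ, 18 / 7 ≤ κ → 0 < ε → ∃ C : ℝ, 0 < C ∧ ∀ X : ℝ, 1 ≤ X →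
      ((Large κ K X).ncard : ℝ) ≤ C * X ^ (4 / 7 + ε)) ∧
    (∀ κ K ε : ℝ, 2 < κ → κ < 3 → κ < K → 0 < ε → ∃ X₀ : ℝ, ∀ X : ℝ, X₀ ≤ X →
      X ^ (1 - κ / 6 - ε) ≤ ((Between κ K X).ncard : ℝ)) := by
  refine ⟨fun κ K X => ⟨EK_fin κ K X, EB_sub⟩, ?_, ?_, ?_⟩
  · intro κ K hκ hκ1 hκK
    have hK0 : 0 ≤ K := by linarith
    have hsub : ∀ X : ℝ, ((Between κ K X).ncard : ℝ) ≤ ((Large κ K X).ncard : ℝ) :=
      fun X => by exact_mod_cast Set.ncard_le_ncard (EB_sub hK0) (EK_fin κ K X)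
    have hup : ∀ ε : ℝ, 0 < ε → ∃ C : ℝ, 0 < C ∧ ∀ X : ℝ, 1 ≤ X →
        ((Large κ K X).ncard : ℝ) ≤ C * X ^ (1 - κ / 6 + ε) :=
      fun ε hε => upperE hκ hκ1 hε
    have hlo : ∀ ε : ℝ, 0 < ε → ∃ X₀ : ℝ, ∀ X : ℝ, X₀ ≤ X →
        X ^ (1 - κ / 6 - ε) ≤ ((Between κ K X).ncard : ℝ) :=
      fun ε hε => lowerE hκ (by linarith) hκK hε
    refine ⟨tendsto_exponent hup fun ε hε => ?_, tendsto_exponent (fun ε hε => ?_) hlo⟩
    · obtain ⟨X₀, h1⟩ := hlo ε hε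
      exact ⟨X₀, fun X hX => (h1 X hX).trans (hsub X)⟩
    · obtain ⟨C, hC, h1⟩ := hup ε hε
      exact ⟨C, hC, fun X hX => (hsub X).trans (h1 X hX)⟩
  · intro κ K ε hκ hε
    obtain ⟨C, hC, h1⟩ := upperE (κ := 18 / 7) (K := K) (by norm_num) le_rfl hε
    refine ⟨C, hC, fun X hX => ?_⟩
    have hsub : Large κ K X ⊆ EK (18 / 7) K X := by
      rintro q ⟨W, w1, w2, w3, w4, w5, w6, w7⟩
      refine ⟨W, w1, w2, w3, w4, w5, le_trans ?_ w6, w7⟩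
      have hN1 : (1 : ℝ) ≤ (conductor W : ℝ) := Pool.Agent.Y680.S.rd_pos' _
      exact Real.rpow_le_rpow_of_exponent_le hN1 hκ
    have h2 : ((Large κ K X).ncard : ℝ) ≤ ((EK (18 / 7) K X).ncard : ℝ) := by
      exact_mod_cast Set.ncard_le_ncard hsub (EK_fin _ _ _)
    refine (h2.trans (h1 X hX)).trans (le_of_eq ?_)
    congr 2
    norm_num
  · intro κ K ε hκ hκ1 hκK hε
    exact lowerE hκ hκ1 hκK hε

end Pool.Agent.Results.MP_d8bd92_nt.LargeDiscriminantsPoly
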