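import Pool.Agent.Q9.SS.Cur
import Pool.Agent.Q9.SS.Low

/-!
# Semistable elliptic curves with full rational 2-torsion, ordered by conductor: the limiting distribution

The discriminant of a semistable elliptic curve over `ℚ` with full rational 2-torsion is `Δ = (w N) ²`, `N` the
conductor and `w` an integer.  We prove that these curves, ordered by conductor, have a limiting distribution of
the pair `(Δ / N ², j)`: the two are independent, the law of `j` is explicit; in consequence `c₄ ³ / N ²` has a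
limiting distribution too, and the tails of the distributions of `Δ / N ²` and of `c₄ ³ / N ²` are of the size
`K ^ (-1/6)`, uniformly in the range `K ≤ N ^ (1 - o(1))`.

The curves correspond to the coprime pairs `0 < a ≤ b` with `16 ∣ a b (a + b)`, `Δ = (a b (a + b) / 16) ²`
(`Pool.Agent.Y680.S`).  Those with a given quotient `w` are given by local conditions (`Pool.Agent.Q9.SS.Loc`), so
that the equidistribution theorem `Pool.Agent.Y679.Jl.law` of the starting modules applies, and the tails are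
controlled by `Pool.Agent.Y679.Jl.fixed'` and by the theorem on the abc triples of all heights
`Pool.Agent.Y911.AA.saving`.
-/

set_option autoImplicit false

namespace Pool.Agent.Results.MP_d8bd92_nt.LimitLaw

open Filter Topology MeasureTheory

/-- the product of the primes dividing `Δ(W)` (the conductor if `gcd(c₄, Δ) = 1`) -/
def conductor (W : WeierstrassCurve ℤ) : ℕ := ∏ p ∈ W.Δ.natAbs.primeFactors, p

/-- all 2-torsion points are rational: `4x³ + b₂x² + 2b₄x + b₆` splits over `ℚ` -/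
def FullTwoTorsion (W : WeierstrassCurve ℤ) : Prop :=
  ∃ r₁ r₂ r₃ : ℚ, ∀ x : ℚ,
    4 * x ^ 3 + W.b₂ * x ^ 2 + 2 * W.b₄ * x + W.b₆ = 4 * (x - r₁) * (x - r₂) * (x - r₃)

/-- `W` is an integral Weierstrass curve with `Δ ≠ 0` and `gcd(c₄, Δ) = 1` (the minimal model of a semistable
elliptic curve over `ℚ`) with full rational 2-torsion -/
def Good (W : WeierstrassCurve ℤ) : Prop := W.Δ ≠ 0 ∧ IsCoprime W.c₄ W.Δ ∧ FullTwoTorsion W

/-- the invariants `(c₄, c₆)` of these curves, conductor at most `N`; there is no condition on the size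
of `Δ` -/
def Curves (N : ℝ) : Set (ℤ × ℤ) := {q | ∃ W, Good W ∧ q = (W.c₄, W.c₆) ∧ (conductor W : ℝ) ≤ N}

/-- those with `Δ = (w N) ²` (`N` the conductor) and `j ≤ 1728 t`, that is `c₄ ³ ≤ 1728 t Δ` -/
def Joint (w : ℕ) (t N : ℝ) : Set (ℤ × ℤ) :=
  {q | ∃ W, Good W ∧ q = (W.c₄, W.c₆) ∧ (conductor W : ℝ) ≤ N ∧ W.Δ = ((w * conductor W : ℕ) : ℤ) ^ 2 ∧
    (W.c₄ : ℝ) ^ 3 ≤ 1728 * t * (W.Δ : ℝ)}

/-- those with `c₄ ³ ≤ K N ²` -/
def Below (K N : ℝ) : Set (ℤ × ℤ) :=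
  {q | ∃ W, Good W ∧ q = (W.c₄, W.c₆) ∧ (conductor W : ℝ) ≤ N ∧ (W.c₄ : ℝ) ^ 3 ≤ K * (conductor W : ℝ) ^ 2}

/-- those with `c₄ ³ > K N ²` -/
def Above (K N : ℝ) : Set (ℤ × ℤ) :=
  {q | ∃ W, Good W ∧ q = (W.c₄, W.c₆) ∧ (conductor W : ℝ) ≤ N ∧ K * (conductor W : ℝ) ^ 2 < (W.c₄ : ℝ) ^ 3}

/-- those with `Δ > K N ²` -/
def Large (K N : ℝ) : Set (ℤ × ℤ) :=
  {q | ∃ W, Good W ∧ q = (W.c₄, W.c₆) ∧ (conductor W : ℝ) ≤ N ∧ K * (conductor W : ℝ) ^ 2 < (W.Δ : ℝ)}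

/-- the law of `j / 1728`: this is `4 (1 + s + s²)³ / (27 s² (1 + s)²)` for `s ∈ (0, 1]` with density
proportional to `(s (1 + s)) ^ (-2/3)` -/
noncomputable def jLaw (t : ℝ) : ℝ :=
  (∫ s in {s : ℝ | 0 < s ∧ s ≤ 1 ∧ 4 * (1 + s + s ^ 2) ^ 3 ≤ t * (27 * (s * (1 + s)) ^ 2)},
    (s * (1 + s)) ^ (-(2 / 3) : ℝ)) / ∫ s in Set.Ioc (0 : ℝ) 1, (s * (1 + s)) ^ (-(2 / 3) : ℝ)

/-- **Theorem.** (1) For every semistable curve with full rational 2-torsion there is an integer `w ≥ 1` with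
`Δ = (w N) ²`, and `c₄ ³ ≥ 1728 Δ`. (2) The number of these curves with conductor at most `N` is asymptotic to
`A N ^ (2/3)`, `A > 0`; the number of those with `Δ = (w N) ²` and `j ≤ 1728 t` is
`(α w * jLaw t + o(1)) N ^ (2/3)`, where `∑ α w = A`: the invariant is independent of the quotient `Δ / N ²`. For
all `K` the number of those with `c₄ ³ ≤ K N ²` is `(Φ K + o(1)) N ^ (2/3)`,
`Φ K = ∑ w, α w * jLaw (K / (1728 w ²))`, and `Φ K → A` for `K → ∞`. (3) For `0 < σ < 1/6` at most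
`C (K ^ (-σ) N ^ (2/3) + N ^ (2/3 - η))` of the curves have `c₄ ³ > K N ²`, for all `K, N ≥ 1`, and (4) at least
`c K ^ (-1/6) N ^ (2/3)` have `Δ > K N ²`, if `N ≥ 262144 K`. -/
theorem result :
    (∀ W : WeierstrassCurve ℤ, Good W →
      ∃ w : ℕ, 1 ≤ w ∧ W.Δ = ((w * conductor W : ℕ) : ℤ) ^ 2 ∧ 1728 * W.Δ ≤ W.c₄ ^ 3) ∧
    (∃ (A : ℝ) (α : ℕ → ℝ), 0 < A ∧ (∀ w, 0 ≤ α w) ∧ HasSum α A ∧ (∀ N : ℝ, (Curves N).Finite) ∧
      Tendsto (fun N : ℝ => ((Curves N).ncard : ℝ) / N ^ ((2 : ℝ) / 3)) atTop (𝓝 A) ∧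
      (∀ (w : ℕ) (t : ℝ), Tendsto (fun N : ℝ => ((Joint w t N).ncard : ℝ) / N ^ ((2 : ℝ) / 3)) atTop
        (𝓝 (α w * jLaw t))) ∧
      (∀ K : ℝ, Tendsto (fun N : ℝ => ((Below K N).ncard : ℝ) / N ^ ((2 : ℝ) / 3)) atTop
        (𝓝 (∑' w : ℕ, α w * jLaw (K / (1728 * (w : ℝ) ^ 2))))) ∧
      Tendsto (fun K : ℝ => ∑' w : ℕ, α w * jLaw (K / (1728 * (w : ℝ) ^ 2))) atTop (𝓝 A)) ∧
    (∀ σ : ℝ, 0 < σ → σ < 1 / 6 → ∃ η C : ℝ, 0 < η ∧ 0 < C ∧ ∀ N K : ℝ, 1 ≤ N → 1 ≤ K →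
      ((Above K N).ncard : ℝ) ≤ C * (K ^ (-σ) * N ^ ((2 : ℝ) / 3) + N ^ (2 / 3 - η))) ∧
    (∃ c : ℝ, 0 < c ∧ ∀ N K : ℝ, 1 ≤ K → 262144 * K ≤ N →
      c * (K ^ (-(1 / 6) : ℝ) * N ^ ((2 : ℝ) / 3)) ≤ ((Large K N).ncard : ℝ)) := by
  refine ⟨fun W hW => Pool.Agent.Q9.SS.quotient hW, ?_, fun σ h1 h2 => ?_, ?_⟩
  · obtain ⟨A, α, h1, h2, h3, h4, h5, h6⟩ := Pool.Agent.Q9.SS.total
    refine ⟨A, α, Pool.Agent.Q9.SS.A_pos h3, h1, h2, fun N => (Pool.Agent.Q9.SS.SC_count N).2, ?_,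
      fun w t => ?_, fun K => ?_, h6⟩
    · have e : ∀ N : ℝ, (Curves N).ncard = (Pool.Agent.Q9.SS.PP N).ncard :=
        fun N => (Pool.Agent.Q9.SS.SC_count N).1
      simp only [e]
      exact h3
    · have e : ∀ N : ℝ, (Joint w t N).ncard = (Pool.Agent.Q9.SS.Pj w t N).ncard :=
        fun N => Pool.Agent.Q9.SS.SJ_count w t N
      simp only [e]
      exact h4 w t
    · have e : ∀ N : ℝ, (Below K N).ncard = (Pool.Agent.Q9.SS.PK K N).ncard :=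
        fun N => Pool.Agent.Q9.SS.SK_count K N
      simp only [e]
      exact h5 K
  · obtain ⟨η, C, hη, hC, h⟩ := Pool.Agent.Q9.SS.PH_le h1 h2
    refine ⟨η, C, hη, hC, fun N K hN hK => ?_⟩
    have e : (Above K N).ncard = (Pool.Agent.Q9.SS.PH K N).ncard := Pool.Agent.Q9.SS.SH_count K N
    rw [e]
    exact h N K hN hK
  · obtain ⟨c, hc, h⟩ := Pool.Agent.Q9.SS.PL_ge
    refine ⟨c, hc, fun N K hK hN => ?_⟩
    have hK0 : 0 < K := by linarith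
    have e : (Large K N).ncard = {p | p ∈ Pool.Agent.Q9.SS.PP N ∧
        K * (Pool.Agent.TH498.AR.rd (Pool.Agent.Q9.SS.mm p) : ℝ) ^ 2 < (Pool.Agent.Q9.SS.mm p : ℝ) ^ 2}.ncard :=
      Pool.Agent.Q9.SS.SD_count K N
    have e2 : {p | p ∈ Pool.Agent.Q9.SS.PP N ∧
        K * (Pool.Agent.TH498.AR.rd (Pool.Agent.Q9.SS.mm p) : ℝ) ^ 2 < (Pool.Agent.Q9.SS.mm p : ℝ) ^ 2} =
        Pool.Agent.Q9.SS.PL (Real.sqrt K) N := by
      ext p
      have h1 : K * (Pool.Agent.TH498.AR.rd (Pool.Agent.Q9.SS.mm p) : ℝ) ^ 2 =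
          (Real.sqrt K * (Pool.Agent.TH498.AR.rd (Pool.Agent.Q9.SS.mm p) : ℝ)) ^ 2 := by
        rw [mul_pow, Real.sq_sqrt hK0.le]
      constructor
      · rintro ⟨a, b⟩
        refine ⟨a, ?_⟩
        rw [h1] at b
        exact lt_of_pow_lt_pow_left₀ 2 (Nat.cast_nonneg _) b
      · rintro ⟨a, b⟩
        refine ⟨a, ?_⟩
        rw [h1]
        exact pow_lt_pow_left₀ b (by positivity) two_ne_zero
    rw [e, e2]
    have h2 := h N (Real.sqrt K) (Real.one_le_sqrt.2 hK) (by rw [Real.sq_sqrt hK0.le]; exact hN)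
    have e3 : (Real.sqrt K) ^ (-(1 / 3) : ℝ) = K ^ (-(1 / 6) : ℝ) := by
      rw [Real.sqrt_eq_rpow, ← Real.rpow_mul hK0.le]
      norm_num
    rw [e3] at h2
    refine le_trans (le_of_eq ?_) h2
    ring

end Pool.Agent.Results.MP_d8bd92_nt.LimitLaw
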